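import Pool.Agent.Helper57.SS.Goals

/-!
# Packet SS-GAP
-/

set_option autoImplicit false

namespace Pool.Agent.Helper31.SS

open MeasureTheory Filter Topology
open Pool.Agent.Helper57.SS

theorem gGAP : G_GAP := by
  intro hS ν _ ε D hD
  by_contra hcon
  push Not at hcon
  choose x hx1 hx2 hx3 using fun k : ℕ => hcon (1 / ((k : ℝ) + 1)) (by positivity)
  choose e he1 he2 using fun k : ℕ => hD ((x k : ℝ) : Ci) (hx2 k)
  obtain ⟨e0, he0⟩ : ∃ e0, ∃ᶠ k in atTop, e k = e0 := by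
    by_contra h
    push Not at h
    have h1 : ∀ᶠ k in atTop, ∀ e0 ∈ D, ¬ e k = e0 :=
      (Filter.eventually_all_finset D).2 fun e0 _ => h e0
    obtain ⟨k, hk⟩ := h1.exists
    exact hk (e k) (he1 k) rfl
  obtain ⟨k0, hk0⟩ := he0.exists
  obtain ⟨-, hneg, hadd, -, -, hcl⟩ := hS ν (8 * ε) (8 * ε)
  obtain ⟨-, hneg4, hadd4, -, -, -⟩ := hS ν (4 * ε) (4 * ε)
  apply hx3 k0
  have hx0 : Tendsto x atTop (𝓝 0) := by
    apply squeeze_zero_norm (a := fun k : ℕ => 1 / ((k : ℝ) + 1))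
    · intro k
      rw [Real.norm_eq_abs]
      exact hx1 k
    · exact tendsto_one_div_add_atTop_nhds_zero_nat
  have hx0' : Tendsto (fun l => ((x k0 : ℝ) : Ci) - ((x l : ℝ) : Ci)) atTop (𝓝 ((x k0 : ℝ) : Ci)) := by
    have h1 : Tendsto (fun l => ((x l : ℝ) : Ci)) atTop (𝓝 ((0 : ℝ) : Ci)) :=
      ((AddCircle.continuous_mk' (1 : ℝ)).tendsto 0).comp hx0
    have h2 := (tendsto_const_nhds (x := ((x k0 : ℝ) : Ci))).sub h1
    simpa using h2
  refine hcl.mem_of_frequently_of_tendsto ?_ hx0'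
  refine he0.mono fun l hl => ?_
  have h1 := he2 k0
  have h2 := he2 l
  rw [hk0] at h1
  rw [hl] at h2
  have h3 := hadd4 _ _ h1 (hneg4 _ h2)
  have h4 : (((x k0 : ℝ) : Ci) - e0) + -(((x l : ℝ) : Ci) - e0) = ((x k0 : ℝ) : Ci) - ((x l : ℝ) : Ci) := by
    abel
  rw [h4] at h3
  have h5 : 4 * ε + 4 * ε = 8 * ε := by ring
  rwa [h5] at h3

end Pool.Agent.Helper31.SS
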